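import Mathlib

set_option autoImplicit false

namespace Pool.Agent.Results.MP_3cdea4_co.Half

open Classical

/-- the set of multinomial values with upper entry `n` -/
noncomputable def M (n : ℕ) : Finset ℕ :=
  (Finset.univ : Finset (Nat.Partition n)).image
    fun p => n.factorial / (p.parts.map Nat.factorial).prod

/-- all unordered pair sums (repetition allowed) are distinct -/
def Sidon (S : Finset ℕ) : Prop :=
  ∀ x ∈ S, ∀ y ∈ S, ∀ u ∈ S, ∀ v ∈ S, x + y = u + v → (x = u ∧ y = v) ∨ (x = v ∧ y = u)

/-- `S` together with `0` is Sidon -/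
def StrongSidon (S : Finset ℕ) : Prop := Sidon (insert 0 S)

noncomputable def s (n : ℕ) : ℕ := ((M n).powerset.filter Sidon).sup Finset.card

noncomputable def b (n : ℕ) : ℕ := ((M n).powerset.filter StrongSidon).sup Finset.card

def Free (A : Finset ℕ) : Prop := ∀ x ∈ A, ∀ y ∈ A, x + y ∉ A

lemma dvd_fac (m : Multiset ℕ) : (m.map Nat.factorial).prod ∣ m.sum.factorial := by
  induction m using Multiset.induction_on with
  | empty => simp
  | cons a m ih =>
    rw [Multiset.map_cons, Multiset.prod_cons, Multiset.sum_cons]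
    exact (Nat.mul_dvd_mul_left _ ih).trans (Nat.factorial_mul_factorial_dvd_factorial_add a m.sum)

lemma M_pos (n x : ℕ) (h : x ∈ M n) : 0 < x := by
  obtain ⟨p, -, rfl⟩ := Finset.mem_image.1 h
  have h1 := dvd_fac p.parts
  rw [p.parts_sum] at h1
  exact Nat.div_pos (Nat.le_of_dvd (Nat.factorial_pos n) h1)
    (Nat.pos_of_dvd_of_pos h1 (Nat.factorial_pos n))

lemma Sidon.mono {S T : Finset ℕ} (h : Sidon T) (hs : S ⊆ T) : Sidon S :=
  fun x hx y hy u hu v hv e => h x (hs hx) y (hs hy) u (hs hu) v (hs hv) e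

lemma free_insert (a : ℕ) (A : Finset ℕ) (ha : 0 < a) (hlt : ∀ x ∈ A, x < a)
    (hpos : ∀ x ∈ A, 0 < x) (hA : Free A) (hn : ∀ x ∈ A, ∀ y ∈ A, x + y ≠ a) :
    Free (insert a A) := by
  intro x hx y hy hxy
  rw [Finset.mem_insert] at hx hy hxy
  rcases hx with rfl | hx
  · rcases hy with rfl | hy
    · rcases hxy with h | h
      · omega
      · have := hlt _ h; omega
    · have := hpos _ hy
      rcases hxy with h | h
      · omega
      · have := hlt _ h; omega
  · have := hpos _ hx
    rcases hy with rfl | hy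
    · rcases hxy with h | h
      · omega
      · have := hlt _ h; omega
    · rcases hxy with h | h
      · exact hn x hx y hy h
      · exact hA x hx y hy h

lemma split (S : Finset ℕ) : (∀ x ∈ S, 0 < x) → Sidon S →
    ∃ A B : Finset ℕ, A ⊆ S ∧ B ⊆ S ∧ Disjoint A B ∧ S.card = A.card + B.card ∧
      Free A ∧ Free B := by
  induction S using Finset.induction_on_max with
  | empty => intro _ _; exact ⟨∅, ∅, by simp, by simp, by simp, by simp, by simp [Free], by simp [Free]⟩
  | insert a S hlt ih =>
    intro hpos hS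
    have hsub : S ⊆ insert a S := Finset.subset_insert a S
    have hS' : Sidon S := hS.mono hsub
    have ha : 0 < a := hpos a (Finset.mem_insert_self a S)
    have hp : ∀ x ∈ S, 0 < x := fun x hx => hpos x (hsub hx)
    obtain ⟨A, B, hA, hB, hd, hc, fA, fB⟩ := ih hp hS'
    have haS : a ∉ S := fun h => lt_irrefl _ (hlt a h)
    have haA : a ∉ A := fun h => haS (hA h)
    have haB : a ∉ B := fun h => haS (hB h)
    by_cases hx : ∀ x ∈ A, ∀ y ∈ A, x + y ≠ a
    · refine ⟨insert a A, B, Finset.insert_subset_insert a hA, hB.trans hsub, ?_, ?_, ?_, fB⟩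
      · exact Finset.disjoint_insert_left.2 ⟨haB, hd⟩
      · rw [Finset.card_insert_of_notMem haS, Finset.card_insert_of_notMem haA]; omega
      · exact free_insert a A ha (fun x h => hlt x (hA h)) (fun x h => hp x (hA h)) fA hx
    · push Not at hx
      obtain ⟨x, hxA, y, hyA, e⟩ := hx
      refine ⟨A, insert a B, hA.trans hsub, Finset.insert_subset_insert a hB, ?_, ?_, fA, ?_⟩
      · exact Finset.disjoint_insert_right.2 ⟨haA, hd⟩
      · rw [Finset.card_insert_of_notMem haS, Finset.card_insert_of_notMem haB]; omega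
      · refine free_insert a B ha (fun x h => hlt x (hB h)) (fun x h => hp x (hB h)) fB ?_
        intro u hu v hv e'
        rcases hS' x (hA hxA) y (hA hyA) u (hB hu) v (hB hv) (by omega) with h | h
        · exact Finset.disjoint_left.1 hd hxA (h.1 ▸ hu)
        · exact Finset.disjoint_left.1 hd hxA (h.1 ▸ hv)

lemma strong (A : Finset ℕ) (hp : ∀ x ∈ A, 0 < x) (hS : Sidon A) (hf : Free A) :
    StrongSidon A := by
  intro x hx y hy u hu v hv e
  rw [Finset.mem_insert] at hx hy hu hv
  rcases hx with rfl | hx <;> rcases hy with rfl | hy <;> rcases hu with rfl | hu <;>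
    rcases hv with rfl | hv
  · omega
  · omega
  · omega
  · omega
  · omega
  · omega
  · omega
  · exact absurd (by rw [← e, zero_add]; exact hy) (hf u hu v hv)
  · omega
  · omega
  · omega
  · exact absurd (by rw [← e, add_zero]; exact hx) (hf u hu v hv)
  · have := hp x hx; omega
  · exact absurd (by rw [e, zero_add]; exact hv) (hf x hx y hy)
  · exact absurd (by rw [e, add_zero]; exact hu) (hf x hx y hy)
  · exact hS x hx y hy u hu v hv e

lemma general (S : Finset ℕ) (hp : ∀ x ∈ S, 0 < x) (hS : Sidon S) :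
    ∃ A ⊆ S, StrongSidon A ∧ S.card ≤ 2 * A.card := by
  obtain ⟨A, B, hA, hB, -, hc, fA, fB⟩ := split S hp hS
  rcases le_total A.card B.card with h | h
  · exact ⟨B, hB, strong B (fun x hx => hp x (hB hx)) (hS.mono hB) fB, by omega⟩
  · exact ⟨A, hA, strong A (fun x hx => hp x (hA hx)) (hS.mono hA) fA, by omega⟩

theorem result : ∀ n : ℕ, s n ≤ 2 * b n := by
  intro n
  refine Finset.sup_le fun S hS => ?_
  rw [Finset.mem_filter, Finset.mem_powerset] at hS
  obtain ⟨A, hA, h1, h2⟩ := general S (fun x hx => M_pos n x (hS.1 hx)) hS.2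
  have : A.card ≤ b n :=
    Finset.le_sup (f := Finset.card)
      (Finset.mem_filter.2 ⟨Finset.mem_powerset.2 (hA.trans hS.1), h1⟩)
  omega

end Pool.Agent.Results.MP_3cdea4_co.Half
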